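import Mathlib

/-!
# MP_9614a6: worst-case sparse bit-size of Fricke trace polynomials

`S(n) = Θ(n^4)`. The lower bound holds already for the words `a^p b^q (ab)^r`: in the class of the
monomials congruent to `(p,q,r)` modulo `2` there is no cancellation, so a positive proportion of
the coefficients is exponentially large. The upper bound is by recursion on the word.
-/

namespace Pool.Agent.Results.MP_9614a6_lc.ThetaFour

open MvPolynomial

/-- The polynomial ring `ℤ[x,y,z]`. -/
abbrev Pol := MvPolynomial (Fin 3) ℤ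

/-- The group `SL(2,ℂ)`. -/
abbrev SL2 := Matrix.SpecialLinearGroup (Fin 2) ℂ

/-- `w(A,B)`, for a word `w` in the free group on two generators. -/
noncomputable def ev (A B : SL2) (w : FreeGroup (Fin 2)) : SL2 := FreeGroup.lift ![A, B] w

/-- The trace of an element of `SL(2,ℂ)`. -/
noncomputable def tr (A : SL2) : ℂ := (A : Matrix (Fin 2) (Fin 2) ℂ).trace

/-- `f` is the Fricke trace polynomial of `w`:
`Tr w(A,B) = f(Tr A, Tr B, Tr AB)` for all `A, B` in `SL(2,ℂ)`. -/
def IsFricke (w : FreeGroup (Fin 2)) (f : Pol) : Prop :=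
  ∀ A B : SL2, tr (ev A B w) = aeval ![tr A, tr B, tr (A * B)] f

/-- The cyclically reduced length of `w`. -/
def cycLen (w : FreeGroup (Fin 2)) : ℕ := (FreeGroup.reduceCyclically w.toWord).length

/-- The length of the binary expansion of `|m|`. -/
def bit (m : ℤ) : ℕ := Nat.size m.natAbs

/-- The total binary size of the nonzero coefficients of `f`. -/
noncomputable def bitNorm (f : Pol) : ℕ := ∑ m ∈ f.support, bit (coeff m f)

/-- The values `‖f_w‖` for the words `w` of cyclically reduced length `n`. -/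
def sizes (n : ℕ) : Set ℕ :=
  {s | ∃ w : FreeGroup (Fin 2), ∃ f : Pol, cycLen w = n ∧ IsFricke w f ∧ bitNorm f = s}

/-! ### Matrix identities -/

section Mat

variable {R : Type*} [CommRing R] (A B : Matrix (Fin 2) (Fin 2) R)

theorem mul_self_eq (hA : A.det = 1) : A * A = A.trace • A - 1 := by
  rw [Matrix.det_fin_two] at hA
  ext i j
  fin_cases i <;> fin_cases j <;>
    simp [Matrix.mul_apply, Matrix.trace_fin_two, Fin.sum_univ_two] <;>
    first | ring1 | linear_combination -hA

theorem mul_comm_eq : B * A = ((A * B).trace - A.trace * B.trace) • (1 : Matrix (Fin 2) (Fin 2) R) +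
    B.trace • A + A.trace • B - A * B := by
  ext i j
  fin_cases i <;> fin_cases j <;>
    simp [Matrix.mul_apply, Matrix.trace_fin_two, Fin.sum_univ_two] <;> ring

end Mat

/-! ### Every word as a combination of `1, A, B, AB` -/

/-- Left multiplication by a letter, on the coefficients with respect to `1, A, B, AB`. -/
noncomputable def step (l : Fin 2 × Bool) (t : Pol × Pol × Pol × Pol) : Pol × Pol × Pol × Pol :=
  if l.1 = 0 then
    (if l.2 = true then (-t.2.1, t.1 + X 0 * t.2.1, -t.2.2.2, t.2.2.1 + X 0 * t.2.2.2)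
      else (X 0 * t.1 + t.2.1, -t.1, X 0 * t.2.2.1 + t.2.2.2, -t.2.2.1))
  else
    (if l.2 = true then
      (X 2 * t.2.1 - X 0 * (X 1 * t.2.1) - t.2.2.1 - X 0 * t.2.2.2, X 1 * t.2.1 + t.2.2.2,
        t.1 + X 0 * t.2.1 + X 1 * t.2.2.1 + X 2 * t.2.2.2, -t.2.1)
      else (X 1 * t.1 - X 2 * t.2.1 + X 0 * (X 1 * t.2.1) + t.2.2.1 + X 0 * t.2.2.2, -t.2.2.2,
        -t.1 - X 0 * t.2.1 - X 2 * t.2.2.2, X 1 * t.2.2.2 + t.2.1))

/-- The coefficients of a word with respect to `1, A, B, AB`. -/
noncomputable def Q : List (Fin 2 × Bool) → Pol × Pol × Pol × Pol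
  | [] => (1, 0, 0, 0)
  | l :: L => step l (Q L)

/-- The Fricke polynomial of a word. -/
noncomputable def F (L : List (Fin 2 × Bool)) : Pol :=
  (Q L).1 + (Q L).1 + X 0 * (Q L).2.1 + X 1 * (Q L).2.2.1 + X 2 * (Q L).2.2.2

/-- The value of the letters. -/
noncomputable def letter (A B : SL2) (l : Fin 2 × Bool) : SL2 :=
  cond l.2 (![A, B] l.1) (![A, B] l.1)⁻¹

theorem ev_mk (A B : SL2) (L : List (Fin 2 × Bool)) :
    ev A B (FreeGroup.mk L) = (L.map (letter A B)).prod := by
  unfold ev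
  rw [FreeGroup.lift_mk]
  rfl

theorem coe_inv_eq (A : SL2) : ((A⁻¹ : SL2) : Matrix (Fin 2) (Fin 2) ℂ) =
    tr A • (1 : Matrix (Fin 2) (Fin 2) ℂ) - (A : Matrix (Fin 2) (Fin 2) ℂ) := by
  rw [Matrix.SpecialLinearGroup.coe_inv, Matrix.adjugate_fin_two]
  unfold tr
  ext i j
  fin_cases i <;> fin_cases j <;> simp [Matrix.trace_fin_two]

/-- The vector of the three traces. -/
noncomputable def tv (A B : SL2) : Fin 3 → ℂ := ![tr A, tr B, tr (A * B)]

theorem Q_spec (A B : SL2) (L : List (Fin 2 × Bool)) :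
    (ev A B (FreeGroup.mk L) : Matrix (Fin 2) (Fin 2) ℂ) =
      aeval (tv A B) (Q L).1 • (1 : Matrix (Fin 2) (Fin 2) ℂ) +
      aeval (tv A B) (Q L).2.1 • (A : Matrix (Fin 2) (Fin 2) ℂ) +
      aeval (tv A B) (Q L).2.2.1 • (B : Matrix (Fin 2) (Fin 2) ℂ) +
      aeval (tv A B) (Q L).2.2.2 • ((A : Matrix (Fin 2) (Fin 2) ℂ) * B) := by
  rw [ev_mk]
  induction L with
  | nil => simp [Q]
  | cons l L ih =>
    rw [List.map_cons, List.prod_cons, Matrix.SpecialLinearGroup.coe_mul, ih]
    set M : Matrix (Fin 2) (Fin 2) ℂ := (A : Matrix (Fin 2) (Fin 2) ℂ) with hM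
    set N : Matrix (Fin 2) (Fin 2) ℂ := (B : Matrix (Fin 2) (Fin 2) ℂ) with hN
    have hMM : M * M = tr A • M - 1 := mul_self_eq M A.2
    have hNN : N * N = tr B • N - 1 := mul_self_eq N B.2
    have hNM : N * M = (tr (A * B) - tr A * tr B) • (1 : Matrix (Fin 2) (Fin 2) ℂ) + tr B • M +
        tr A • N - M * N := mul_comm_eq M N
    have hMMN : M * (M * N) = tr A • (M * N) - N := by
      rw [← mul_assoc, hMM, sub_mul, Matrix.smul_mul, one_mul]
    have hNMN : N * (M * N) = tr (A * B) • N - tr A • (1 : Matrix (Fin 2) (Fin 2) ℂ) + M := by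
      rw [← mul_assoc, hNM, sub_mul, add_mul, add_mul, Matrix.smul_mul, Matrix.smul_mul,
        Matrix.smul_mul, one_mul, mul_assoc M N N, hNN, mul_sub, Matrix.mul_smul, mul_one]
      module
    have x0 : (aeval (tv A B)) (X 0 : Pol) = tr A := by simp [tv]
    have x1 : (aeval (tv A B)) (X 1 : Pol) = tr B := by simp [tv]
    have x2 : (aeval (tv A B)) (X 2 : Pol) = tr (A * B) := by simp [tv]
    obtain ⟨g, b⟩ := l
    have hg : g = 0 ∨ g = 1 := by
      fin_cases g
      · exact Or.inl rfl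
      · exact Or.inr rfl
    rcases hg with rfl | rfl
    · have hl0 : letter A B (0, true) = A := rfl
      have hl1 : letter A B (0, false) = A⁻¹ := rfl
      cases b
      · rw [hl1, coe_inv_eq, Q, step, ← hM]
        simp only [if_true, Bool.false_eq_true, if_false, map_add, map_neg, map_mul, x0]
        rw [sub_mul, Matrix.smul_mul, one_mul, mul_add, mul_add, mul_add, Matrix.mul_smul,
          Matrix.mul_smul, Matrix.mul_smul, Matrix.mul_smul, mul_one, hMM, hMMN]
        module
      · rw [hl0, Q, step, ← hM]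
        simp only [if_true, map_add, map_neg, map_mul, x0]
        rw [mul_add, mul_add, mul_add, Matrix.mul_smul, Matrix.mul_smul, Matrix.mul_smul,
          Matrix.mul_smul, mul_one, hMM, hMMN]
        module
    · have hl0 : letter A B (1, true) = B := rfl
      have hl1 : letter A B (1, false) = B⁻¹ := rfl
      cases b
      · rw [hl1, coe_inv_eq, Q, step, ← hN]
        simp only [one_ne_zero, Bool.false_eq_true, if_false, map_add, map_neg, map_mul,
          map_sub, x0, x1, x2]
        rw [sub_mul, Matrix.smul_mul, one_mul, mul_add, mul_add, mul_add, Matrix.mul_smul,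
          Matrix.mul_smul, Matrix.mul_smul, Matrix.mul_smul, mul_one, hNN, hNM, hNMN]
        module
      · rw [hl0, Q, step, ← hN]
        simp only [one_ne_zero, if_true, if_false, map_add, map_neg, map_mul,
          map_sub, x0, x1, x2]
        rw [mul_add, mul_add, mul_add, Matrix.mul_smul, Matrix.mul_smul, Matrix.mul_smul,
          Matrix.mul_smul, mul_one, hNN, hNM, hNMN]
        module

theorem isFricke_mk (L : List (Fin 2 × Bool)) : IsFricke (FreeGroup.mk L) (F L) := by
  intro A B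
  have h := congrArg Matrix.trace (Q_spec A B L)
  have h2 : tr (ev A B (FreeGroup.mk L)) =
      (ev A B (FreeGroup.mk L) : Matrix (Fin 2) (Fin 2) ℂ).trace := rfl
  rw [h2, h]
  simp only [Matrix.trace_add, Matrix.trace_smul, smul_eq_mul]
  have h3 : ((A : Matrix (Fin 2) (Fin 2) ℂ) * B).trace = tr (A * B) := rfl
  have h4 : (A : Matrix (Fin 2) (Fin 2) ℂ).trace = tr A := rfl
  have h5 : (B : Matrix (Fin 2) (Fin 2) ℂ).trace = tr B := rfl
  rw [h3, h4, h5]
  have h6 : (![tr A, tr B, tr (A * B)] : Fin 3 → ℂ) = tv A B := rfl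
  rw [h6]
  unfold F
  have x0 : (aeval (tv A B)) (X 0 : Pol) = tr A := by simp [tv]
  have x1 : (aeval (tv A B)) (X 1 : Pol) = tr B := by simp [tv]
  have x2 : (aeval (tv A B)) (X 2 : Pol) = tr (A * B) := by simp [tv]
  have h7 : (1 : Matrix (Fin 2) (Fin 2) ℂ).trace = 2 := by simp [Matrix.trace_one]
  rw [h7]
  simp only [map_add, map_mul, x0, x1, x2]
  ring

/-- Traces are invariant under conjugation. -/
theorem IsFricke.conj {w : FreeGroup (Fin 2)} {f : Pol} (h : IsFricke w f)
    (v : FreeGroup (Fin 2)) : IsFricke (v * w * v⁻¹) f := by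
  intro A B
  rw [← h A B]
  unfold ev tr
  rw [map_mul, map_mul, map_inv, Matrix.SpecialLinearGroup.coe_mul, Matrix.trace_mul_comm,
    ← Matrix.SpecialLinearGroup.coe_mul, ← mul_assoc, inv_mul_cancel, one_mul]

/-! ### Uniqueness -/

theorem exists_traces (x y z : ℂ) : ∃ A B : SL2, tr A = x ∧ tr B = y ∧ tr (A * B) = z := by
  obtain ⟨u, hu⟩ : ∃ u : ℂ, u ^ 2 - z * u + 1 = 0 := by
    obtain ⟨s, hs⟩ := IsAlgClosed.exists_pow_nat_eq (z ^ 2 - 4) (n := 2) (by norm_num)
    refine ⟨(z + s) / 2, ?_⟩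
    linear_combination (1 / 4) * hs
  have hu0 : u ≠ 0 := by
    rintro rfl
    norm_num at hu
  refine ⟨⟨!![x, -1; 1, 0], by simp⟩, ⟨!![0, u; -u⁻¹, y], by
    rw [Matrix.det_fin_two_of]; field_simp; ring⟩, ?_, ?_, ?_⟩
  · simp [tr, Matrix.trace_fin_two]
  · simp [tr, Matrix.trace_fin_two]
  · change (!![x, -1; 1, 0] * !![0, u; -u⁻¹, y] : Matrix (Fin 2) (Fin 2) ℂ).trace = z
    rw [Matrix.trace_fin_two]
    simp [Matrix.mul_apply]
    field_simp
    linear_combination hu

theorem IsFricke.unique {w : FreeGroup (Fin 2)} {f g : Pol} (hf : IsFricke w f)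
    (hg : IsFricke w g) : f = g := by
  have h : map (Int.castRingHom ℂ) f = map (Int.castRingHom ℂ) g := by
    refine MvPolynomial.funext fun v => ?_
    obtain ⟨A, B, hA, hB, hAB⟩ := exists_traces (v 0) (v 1) (v 2)
    have h1 := (hf A B).symm.trans (hg A B)
    rw [hA, hB, hAB] at h1
    have h2 : (![v 0, v 1, v 2] : Fin 3 → ℂ) = v := by
      ext i
      fin_cases i <;> rfl
    rw [h2, aeval_def, aeval_def, eval₂_eq_eval_map, eval₂_eq_eval_map] at h1
    exact h1
  exact MvPolynomial.map_injective _ Int.cast_injective h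

theorem exists_unique_fricke (w : FreeGroup (Fin 2)) : ∃! f : Pol, IsFricke w f := by
  refine ⟨F w.toWord, ?_, fun g hg => ?_⟩
  · have := isFricke_mk w.toWord
    rwa [FreeGroup.mk_toWord] at this
  · have := isFricke_mk w.toWord
    rw [FreeGroup.mk_toWord] at this
    exact hg.unique this

/-! ### The upper bound -/

/-- The coefficients of `f` are at most `N` in absolute value, and all exponents at most `d`. -/
def Box (f : Pol) (N d : ℕ) : Prop :=
  ∀ m, (coeff m f).natAbs ≤ N ∧ (coeff m f ≠ 0 → ∀ i, m i ≤ d)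

theorem Box.mono {f : Pol} {N d N' d' : ℕ} (h : Box f N d) (hN : N ≤ N') (hd : d ≤ d') :
    Box f N' d' :=
  fun m => ⟨(h m).1.trans hN, fun h0 i => ((h m).2 h0 i).trans hd⟩

theorem Box.add {f g : Pol} {N d N' d' : ℕ} (h : Box f N d) (h' : Box g N' d') :
    Box (f + g) (N + N') (max d d') := by
  intro m
  rw [coeff_add]
  refine ⟨(Int.natAbs_add_le _ _).trans (add_le_add (h m).1 (h' m).1), fun h0 i => ?_⟩
  by_cases hf : coeff m f = 0
  · have hg : coeff m g ≠ 0 := by
      intro hg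
      rw [hf, hg, add_zero] at h0
      exact h0 rfl
    exact ((h' m).2 hg i).trans (le_max_right _ _)
  · exact ((h m).2 hf i).trans (le_max_left _ _)

theorem Box.neg {f : Pol} {N d : ℕ} (h : Box f N d) : Box (-f) N d := by
  intro m
  rw [coeff_neg, Int.natAbs_neg]
  refine ⟨(h m).1, fun h0 => (h m).2 ?_⟩
  intro h1
  rw [h1, neg_zero] at h0
  exact h0 rfl

theorem Box.sub {f g : Pol} {N d N' d' : ℕ} (h : Box f N d) (h' : Box g N' d') :
    Box (f - g) (N + N') (max d d') := by
  rw [sub_eq_add_neg]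
  exact h.add h'.neg

theorem Box.X_mul {f : Pol} {N d : ℕ} (h : Box f N d) (i : Fin 3) :
    Box (X i * f) N (d + 1) := by
  intro m
  rw [coeff_X_mul']
  split_ifs with hi
  · refine ⟨(h _).1, fun h0 j => ?_⟩
    have h1 := (h _).2 h0 j
    rw [Finsupp.tsub_apply] at h1
    have h2 : Finsupp.single i 1 j ≤ 1 := by
      rw [Finsupp.single_apply]
      split_ifs <;> omega
    omega
  · exact ⟨by simp, fun h0 => absurd rfl h0⟩

theorem Box.zero : Box 0 0 0 := by
  intro m
  simp

theorem Box.one : Box 1 1 0 := by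
  intro m
  rw [coeff_one]
  split_ifs with h
  · subst h
    simp
  · simp

/-- All four coefficient polynomials. -/
def Box4 (t : Pol × Pol × Pol × Pol) (N d : ℕ) : Prop :=
  Box t.1 N d ∧ Box t.2.1 N d ∧ Box t.2.2.1 N d ∧ Box t.2.2.2 N d

theorem Box4.step {t : Pol × Pol × Pol × Pol} {N d : ℕ} (h : Box4 t N d) (l : Fin 2 × Bool) :
    Box4 (step l t) (5 * N) (d + 2) := by
  obtain ⟨h1, h2, h3, h4⟩ := h
  unfold ThetaFour.step
  split_ifs
  · refine ⟨h2.neg.mono (by omega) (by omega), (h1.add (h2.X_mul 0)).mono (by omega) ?_,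
      h4.neg.mono (by omega) (by omega), (h3.add (h4.X_mul 0)).mono (by omega) ?_⟩ <;>
    · simp only [max_le_iff]; omega
  · refine ⟨((h1.X_mul 0).add h2).mono (by omega) ?_, h1.neg.mono (by omega) (by omega),
      ((h3.X_mul 0).add h4).mono (by omega) ?_, h3.neg.mono (by omega) (by omega)⟩ <;>
    · simp only [max_le_iff]; omega
  · refine ⟨((((h2.X_mul 2).sub ((h2.X_mul 1).X_mul 0)).sub h3).sub (h4.X_mul 0)).mono
        (by omega) ?_,
      ((h2.X_mul 1).add h4).mono (by omega) ?_,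
      (((h1.add (h2.X_mul 0)).add (h3.X_mul 1)).add (h4.X_mul 2)).mono (by omega) ?_,
      h2.neg.mono (by omega) (by omega)⟩ <;>
    · simp only [max_le_iff]; omega
  · refine ⟨(((((h1.X_mul 1).sub (h2.X_mul 2)).add ((h2.X_mul 1).X_mul 0)).add h3).add
        (h4.X_mul 0)).mono (by omega) ?_,
      h4.neg.mono (by omega) (by omega),
      ((h1.neg.sub (h2.X_mul 0)).sub (h4.X_mul 2)).mono (by omega) ?_,
      ((h4.X_mul 1).add h2).mono (by omega) ?_⟩ <;>
    · simp only [max_le_iff]; omega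

theorem box_Q (L : List (Fin 2 × Bool)) : Box4 (Q L) (5 ^ L.length) (2 * L.length) := by
  induction L with
  | nil =>
    refine ⟨?_, ?_, ?_, ?_⟩
    · exact Box.one
    · exact Box.zero.mono (by norm_num) le_rfl
    · exact Box.zero.mono (by norm_num) le_rfl
    · exact Box.zero.mono (by norm_num) le_rfl
  | cons l L ih =>
    have h := ih.step l
    have e1 : 5 * 5 ^ L.length = 5 ^ (l :: L).length := by
      rw [List.length_cons, pow_succ]
      ring
    have e2 : 2 * L.length + 2 = 2 * (l :: L).length := by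
      rw [List.length_cons]
      ring
    rw [e1, e2] at h
    exact h

theorem box_F (L : List (Fin 2 × Bool)) : Box (F L) (5 ^ (L.length + 1)) (2 * L.length + 1) := by
  obtain ⟨h1, h2, h3, h4⟩ := box_Q L
  refine (((((h1.add h1).add (h2.X_mul 0)).add (h3.X_mul 1)).add (h4.X_mul 2))).mono ?_ ?_
  · rw [pow_succ]
    omega
  · simp only [max_le_iff]
    omega

theorem Box.bitNorm_le {f : Pol} {N d : ℕ} (h : Box f N d) :
    bitNorm f ≤ (d + 1) ^ 3 * Nat.size N := by
  unfold bitNorm
  have h1 : f.support.card ≤ (d + 1) ^ 3 := by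
    have h2 : f.support.card ≤ (Fintype.piFinset fun _ : Fin 3 => Finset.range (d + 1)).card := by
      refine Finset.card_le_card_of_injOn (fun m => (m : Fin 3 → ℕ)) ?_ ?_
      · intro m hm
        rw [Finset.mem_coe, mem_support_iff] at hm
        rw [Finset.mem_coe, Fintype.mem_piFinset]
        intro i
        rw [Finset.mem_range]
        exact Nat.lt_succ_of_le ((h m).2 hm i)
      · intro m _ m' _ hmm
        exact DFunLike.coe_injective hmm
    rw [Fintype.card_piFinset] at h2
    simpa using h2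
  calc ∑ m ∈ f.support, bit (coeff m f) ≤ ∑ m ∈ f.support, Nat.size N :=
        Finset.sum_le_sum fun m _ => Nat.size_le_size (h m).1
    _ = f.support.card * Nat.size N := by rw [Finset.sum_const, smul_eq_mul]
    _ ≤ (d + 1) ^ 3 * Nat.size N := Nat.mul_le_mul_right _ h1

theorem upper (n : ℕ) (s : ℕ) (hs : s ∈ sizes n) : s ≤ 24 * (n + 1) ^ 4 := by
  obtain ⟨w, f, hw, hf, rfl⟩ := hs
  set L := FreeGroup.reduceCyclically w.toWord with hL
  set c := FreeGroup.reduceCyclically.conjugator w.toWord with hc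
  have h1 : w = FreeGroup.mk c * FreeGroup.mk L * (FreeGroup.mk c)⁻¹ := by
    rw [FreeGroup.inv_mk, FreeGroup.mul_mk, FreeGroup.mul_mk, hc, hL,
      FreeGroup.reduceCyclically.conj_conjugator_reduceCyclically, FreeGroup.mk_toWord]
  have h2 : IsFricke w (F L) := by
    rw [h1]
    exact (isFricke_mk L).conj _
  have hLn : L.length = n := hw
  rw [hf.unique h2]
  have h3 := (box_F L).bitNorm_le
  have h4 : Nat.size (5 ^ (L.length + 1)) ≤ 3 * (n + 1) := by
    rw [Nat.size_le, hLn, pow_mul]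
    exact Nat.pow_lt_pow_left (by norm_num) (by omega)
  rw [hLn] at h3
  rw [hLn] at h4
  calc bitNorm (F L) ≤ (2 * n + 1 + 1) ^ 3 * Nat.size (5 ^ (n + 1)) := h3
    _ ≤ (2 * n + 1 + 1) ^ 3 * (3 * (n + 1)) := Nat.mul_le_mul_left _ h4
    _ = 24 * (n + 1) ^ 4 := by ring

/-! ### The lower bound: Chebyshev polynomials -/

/-- `sq (k+1)` is the Chebyshev polynomial `S_k`. -/
noncomputable def sq : ℕ → Polynomial ℤ
  | 0 => 0
  | 1 => 1
  | (k + 2) => Polynomial.X * sq (k + 1) - sq k

theorem sq_coeff (k : ℕ) :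
    (∀ j i, k = j + 2 * i + 1 → (sq k).coeff j = (-1) ^ i * ((j + i).choose i : ℤ)) ∧
    (∀ j, Even (k + j) → (sq k).coeff j = 0) ∧ (∀ j, k ≤ j → (sq k).coeff j = 0) := by
  induction k using Nat.twoStepInduction with
  | zero =>
    refine ⟨fun j i h => by omega, fun j _ => by simp [sq], fun j _ => by simp [sq]⟩
  | one =>
    refine ⟨fun j i h => ?_, fun j h => ?_, fun j h => ?_⟩
    · have h1 : j = 0 := by omega
      have h2 : i = 0 := by omega
      subst h1 h2
      simp [sq]
    · have h1 : j ≠ 0 := by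
        rintro rfl
        simp at h
      simp [sq, Polynomial.coeff_one, h1]
    · have h1 : j ≠ 0 := by omega
      simp [sq, Polynomial.coeff_one, h1]
  | more k ih1 ih2 =>
    obtain ⟨a1, b1, c1⟩ := ih1
    obtain ⟨a2, b2, c2⟩ := ih2
    refine ⟨fun j i h => ?_, fun j h => ?_, fun j h => ?_⟩
    · rw [sq, Polynomial.coeff_sub]
      cases j with
      | zero =>
        obtain ⟨i', rfl⟩ : ∃ i', i = i' + 1 := ⟨i - 1, by omega⟩
        rw [Polynomial.mul_coeff_zero, Polynomial.coeff_X_zero, zero_mul,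
          a1 0 i' (by omega), zero_add, zero_add, Nat.choose_self, Nat.choose_self, pow_succ]
        ring
      | succ j =>
        rw [Polynomial.coeff_X_mul, a2 j i (by omega)]
        cases i with
        | zero =>
          rw [c1 (j + 1) (by omega)]
          simp
        | succ i =>
          rw [a1 (j + 1) i (by omega)]
          have e1 : j + 1 + (i + 1) = (j + i + 1) + 1 := by ring
          have e2 : j + (i + 1) = j + i + 1 := by ring
          have e3 : j + 1 + i = j + i + 1 := by ring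
          rw [e1, e2, e3, Nat.choose_succ_succ' (j + i + 1) i]
          push_cast
          ring
    · rw [sq, Polynomial.coeff_sub]
      cases j with
      | zero =>
        rw [Polynomial.mul_coeff_zero, Polynomial.coeff_X_zero, zero_mul, b1 0 ?_, sub_zero]
        rw [Nat.even_iff] at h ⊢
        omega
      | succ j =>
        rw [Polynomial.coeff_X_mul, b1 (j + 1) ?_, b2 j ?_, sub_zero]
        · rw [Nat.even_iff] at h ⊢
          omega
        · rw [Nat.even_iff] at h ⊢
          omega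
    · rw [sq, Polynomial.coeff_sub]
      cases j with
      | zero => omega
      | succ j =>
        rw [Polynomial.coeff_X_mul, c1 (j + 1) (by omega), c2 j (by omega), sub_zero]

theorem pow_eq (M : Matrix (Fin 2) (Fin 2) ℂ) (x : ℂ) (hM : M * M = x • M - 1) (k : ℕ) :
    M ^ (k + 1) = Polynomial.aeval x (sq (k + 1)) • M -
      Polynomial.aeval x (sq k) • (1 : Matrix (Fin 2) (Fin 2) ℂ) := by
  induction k with
  | zero => simp [sq]
  | succ k ih =>
    rw [pow_succ', ih, mul_sub, Matrix.mul_smul, Matrix.mul_smul, hM, mul_one]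
    have h : Polynomial.aeval x (sq (k + 1 + 1)) = x * Polynomial.aeval x (sq (k + 1)) -
        Polynomial.aeval x (sq k) := by
      have h1 : sq (k + 1 + 1) = Polynomial.X * sq (k + 1) - sq k := rfl
      rw [h1, map_sub, map_mul, Polynomial.aeval_X]
    rw [h]
    module

theorem trace_formula (M N : Matrix (Fin 2) (Fin 2) ℂ) (hM : M.det = 1) (hN : N.det = 1)
    (s s' t t' u u' : ℂ) :
    ((s • M - s' • (1 : Matrix (Fin 2) (Fin 2) ℂ)) * (t • N - t' • (1 : Matrix (Fin 2) (Fin 2) ℂ)) *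
      (u • (M * N) - u' • (1 : Matrix (Fin 2) (Fin 2) ℂ))).trace =
    s * t * (u * ((M * N).trace ^ 2 - 2)) - s * t * (u' * (M * N).trace) -
    (s * M.trace) * t' * (u * (M * N).trace) + s * (t' * N.trace) * u +
    (s * M.trace) * t' * u' - s' * (t * N.trace) * (u * (M * N).trace) +
    (s' * M.trace) * t * u + s' * (t * N.trace) * u' + s' * t' * (u * (M * N).trace) -
    2 * (s' * t' * u') := by
  have h1 : (M * N * (M * N)).trace = (M * N).trace ^ 2 - 2 * (M.det * N.det) := by
    simp only [Matrix.trace_fin_two, Matrix.mul_apply, Fin.sum_univ_two, Matrix.det_fin_two]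
    ring
  have h2 : (M * (M * N)).trace = M.trace * (M * N).trace - M.det * N.trace := by
    simp only [Matrix.trace_fin_two, Matrix.mul_apply, Fin.sum_univ_two, Matrix.det_fin_two]
    ring
  have h3 : (N * (M * N)).trace = N.trace * (M * N).trace - N.det * M.trace := by
    simp only [Matrix.trace_fin_two, Matrix.mul_apply, Fin.sum_univ_two, Matrix.det_fin_two]
    ring
  have h4 : (1 : Matrix (Fin 2) (Fin 2) ℂ).trace = 2 := by simp [Matrix.trace_one]
  rw [hM, hN] at h1
  rw [hM] at h2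
  rw [hN] at h3
  simp only [sub_mul, mul_sub, Matrix.smul_mul, Matrix.mul_smul, one_mul, mul_one,
    Matrix.trace_sub, Matrix.trace_smul, smul_eq_mul, h1, h2, h3, h4]
  ring

/-- The embedding of `ℤ[X]` in `ℤ[x,y,z]` by one of the three variables. -/
noncomputable def e (i : Fin 3) (p : Polynomial ℤ) : Pol := Polynomial.aeval (X i : Pol) p

theorem aeval_e (v : Fin 3 → ℂ) (i : Fin 3) (p : Polynomial ℤ) :
    aeval v (e i p) = Polynomial.aeval (v i) p := by
  unfold e
  rw [← Polynomial.aeval_algHom_apply, aeval_X]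

theorem coeff_prod (f g h : Polynomial ℤ) (m : Fin 3 →₀ ℕ) :
    coeff m (e 0 f * e 1 g * e 2 h) = f.coeff (m 0) * g.coeff (m 1) * h.coeff (m 2) := by
  have emon : ∀ (i : Fin 3) (k : ℕ) (a : ℤ), e i (Polynomial.monomial k a) =
      monomial (Finsupp.single i k) a := by
    intro i k a
    unfold e
    rw [Polynomial.aeval_monomial, monomial_eq, Finsupp.prod_single_index (by simp)]
    rfl
  have eadd : ∀ (i : Fin 3) (p q : Polynomial ℤ), e i (p + q) = e i p + e i q := by
    intro i p q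
    unfold e
    exact map_add _ _ _
  induction f using Polynomial.induction_on' with
  | add f1 f2 h1 h2 =>
    rw [eadd, add_mul, add_mul, coeff_add, h1, h2, Polynomial.coeff_add]
    ring
  | monomial i a =>
    induction g using Polynomial.induction_on' with
    | add f1 f2 h1 h2 =>
      rw [eadd, mul_add, add_mul, coeff_add, h1, h2, Polynomial.coeff_add]
      ring
    | monomial j b =>
      induction h using Polynomial.induction_on' with
      | add f1 f2 h1 h2 =>
        rw [eadd, mul_add, coeff_add, h1, h2, Polynomial.coeff_add]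
        ring
      | monomial k c =>
        rw [emon, emon, emon, monomial_mul, monomial_mul, coeff_monomial,
          Polynomial.coeff_monomial, Polynomial.coeff_monomial, Polynomial.coeff_monomial]
        have hiff : Finsupp.single 0 i + Finsupp.single 1 j + Finsupp.single 2 k = m ↔
            i = m 0 ∧ j = m 1 ∧ k = m 2 := by
          constructor
          · rintro rfl
            refine ⟨?_, ?_, ?_⟩ <;> simp
          · rintro ⟨rfl, rfl, rfl⟩
            ext l
            fin_cases l <;> simp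
        by_cases hh : i = m 0 ∧ j = m 1 ∧ k = m 2
        · rw [if_pos (hiff.2 hh), if_pos hh.1, if_pos hh.2.1, if_pos hh.2.2]
        · rw [if_neg (fun h' => hh (hiff.1 h'))]
          by_cases h1 : i = m 0
          · by_cases h2 : j = m 1
            · have h3 : k ≠ m 2 := fun h3 => hh ⟨h1, h2, h3⟩
              rw [if_neg h3, mul_zero]
            · rw [if_neg h2, mul_zero, zero_mul]
          · rw [if_neg h1, zero_mul, zero_mul]

/-- The word `a^p b^q (ab)^r`. -/
def W (p q r : ℕ) : List (Fin 2 × Bool) :=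
  List.replicate p (0, true) ++ List.replicate q (1, true) ++
    (List.replicate r [((0 : Fin 2), true), ((1 : Fin 2), true)]).flatten

/-- The Fricke polynomial of `a^{P+1} b^{Q+1} (ab)^{R+1}`. -/
noncomputable def G (P Q R : ℕ) : Pol :=
  e 0 (sq (P + 1)) * e 1 (sq (Q + 1)) * e 2 (sq (R + 1) * (Polynomial.X ^ 2 - 2)) -
  e 0 (sq (P + 1)) * e 1 (sq (Q + 1)) * e 2 (sq R * Polynomial.X) -
  e 0 (sq (P + 1) * Polynomial.X) * e 1 (sq Q) * e 2 (sq (R + 1) * Polynomial.X) +
  e 0 (sq (P + 1)) * e 1 (sq Q * Polynomial.X) * e 2 (sq (R + 1)) +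
  e 0 (sq (P + 1) * Polynomial.X) * e 1 (sq Q) * e 2 (sq R) -
  e 0 (sq P) * e 1 (sq (Q + 1) * Polynomial.X) * e 2 (sq (R + 1) * Polynomial.X) +
  e 0 (sq P * Polynomial.X) * e 1 (sq (Q + 1)) * e 2 (sq (R + 1)) +
  e 0 (sq P) * e 1 (sq (Q + 1) * Polynomial.X) * e 2 (sq R) +
  e 0 (sq P) * e 1 (sq Q) * e 2 (sq (R + 1) * Polynomial.X) -
  (e 0 (sq P) * e 1 (sq Q) * e 2 (sq R) + e 0 (sq P) * e 1 (sq Q) * e 2 (sq R))

theorem isFricke_G (P Q R : ℕ) : IsFricke (FreeGroup.mk (W (P + 1) (Q + 1) (R + 1))) (G P Q R) := by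
  intro A B
  have h0 : (![tr A, tr B, tr (A * B)] : Fin 3 → ℂ) = tv A B := rfl
  rw [h0]
  have h1 : (ev A B (FreeGroup.mk (W (P + 1) (Q + 1) (R + 1))) : Matrix (Fin 2) (Fin 2) ℂ) =
      (A : Matrix (Fin 2) (Fin 2) ℂ) ^ (P + 1) * (B : Matrix (Fin 2) (Fin 2) ℂ) ^ (Q + 1) *
        ((A : Matrix (Fin 2) (Fin 2) ℂ) * B) ^ (R + 1) := by
    have hl0 : letter A B (0, true) = A := rfl
    have hl1 : letter A B (1, true) = B := rfl
    rw [ev_mk, W, List.map_append, List.map_append, List.map_replicate, List.map_replicate,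
      List.map_flatten, List.map_replicate, List.prod_append, List.prod_append,
      List.prod_replicate, List.prod_replicate, List.prod_flatten, List.map_replicate,
      List.prod_replicate, hl0, hl1]
    simp only [List.map_cons, List.map_nil, hl0, hl1, List.prod_cons, List.prod_nil, mul_one]
    rw [Matrix.SpecialLinearGroup.coe_mul, Matrix.SpecialLinearGroup.coe_mul,
      Matrix.SpecialLinearGroup.coe_pow, Matrix.SpecialLinearGroup.coe_pow,
      Matrix.SpecialLinearGroup.coe_pow, Matrix.SpecialLinearGroup.coe_mul]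
  have hA : (A : Matrix (Fin 2) (Fin 2) ℂ) * A = tr A • (A : Matrix (Fin 2) (Fin 2) ℂ) - 1 :=
    mul_self_eq _ A.2
  have hB : (B : Matrix (Fin 2) (Fin 2) ℂ) * B = tr B • (B : Matrix (Fin 2) (Fin 2) ℂ) - 1 :=
    mul_self_eq _ B.2
  have hAB : ((A : Matrix (Fin 2) (Fin 2) ℂ) * B) * ((A : Matrix (Fin 2) (Fin 2) ℂ) * B) =
      tr (A * B) • ((A : Matrix (Fin 2) (Fin 2) ℂ) * B) - 1 := mul_self_eq _ (A * B).2
  have h2 : tr (ev A B (FreeGroup.mk (W (P + 1) (Q + 1) (R + 1)))) =
      (ev A B (FreeGroup.mk (W (P + 1) (Q + 1) (R + 1))) : Matrix (Fin 2) (Fin 2) ℂ).trace := rfl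
  rw [h2, h1, pow_eq _ _ hA, pow_eq _ _ hB, pow_eq _ _ hAB, trace_formula _ _ A.2 B.2]
  have x0 : tv A B 0 = tr A := rfl
  have x1 : tv A B 1 = tr B := rfl
  have x2 : tv A B 2 = tr (A * B) := rfl
  have y0 : (A : Matrix (Fin 2) (Fin 2) ℂ).trace = tr A := rfl
  have y1 : (B : Matrix (Fin 2) (Fin 2) ℂ).trace = tr B := rfl
  have y2 : ((A : Matrix (Fin 2) (Fin 2) ℂ) * B).trace = tr (A * B) := rfl
  rw [y0, y1, y2]
  unfold G
  have z2 : Polynomial.aeval (tr (A * B)) (Polynomial.X ^ 2 - 2 : Polynomial ℤ) =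
      tr (A * B) ^ 2 - 2 := by
    rw [map_sub, map_pow, Polynomial.aeval_X, map_ofNat]
  simp only [map_add, map_sub, map_mul, aeval_e, x0, x1, x2, Polynomial.aeval_X, z2]
  ring

theorem isReduced_of_pos {L : List (Fin 2 × Bool)} (h : ∀ l ∈ L, l.2 = true) :
    FreeGroup.IsReduced L := by
  induction L with
  | nil => exact List.isChain_nil
  | cons a t ih =>
    have h1 := ih fun l hl => h l (List.mem_cons_of_mem _ hl)
    unfold FreeGroup.IsReduced at h1 ⊢
    rw [List.isChain_cons]
    refine ⟨fun y hy _ => ?_, h1⟩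
    rw [h a List.mem_cons_self, h y (List.mem_cons_of_mem _ (List.mem_of_mem_head? hy))]

theorem reduceCyclically_of_pos {L : List (Fin 2 × Bool)} (h : ∀ l ∈ L, l.2 = true) :
    FreeGroup.reduceCyclically L = L := by
  induction L using List.bidirectionalRec with
  | nil => simp
  | singleton a => simp
  | cons_append a l b ih =>
    rw [FreeGroup.reduceCyclically.cons_append, if_neg]
    · rfl
    · rintro ⟨-, h2⟩
      have h3 := h a (by simp)
      have h4 := h b (by simp)
      rw [h3, h4] at h2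
      simp at h2

theorem W_pos (p q r : ℕ) : ∀ l ∈ W p q r, l.2 = true := by
  intro l hl
  unfold W at hl
  rw [List.mem_append, List.mem_append, List.mem_flatten] at hl
  rcases hl with (hl | hl) | ⟨l', hl', hl⟩
  · rw [List.mem_replicate] at hl
    rw [hl.2]
  · rw [List.mem_replicate] at hl
    rw [hl.2]
  · rw [List.mem_replicate] at hl'
    rw [hl'.2] at hl
    simp only [List.mem_cons, List.not_mem_nil, or_false] at hl
    rcases hl with rfl | rfl <;> rfl

theorem cycLen_W (p q r : ℕ) : cycLen (FreeGroup.mk (W p q r)) = p + q + 2 * r := by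
  unfold cycLen
  rw [FreeGroup.toWord_mk, (isReduced_of_pos (W_pos p q r)).reduce_eq,
    reduceCyclically_of_pos (W_pos p q r)]
  unfold W
  rw [List.length_append, List.length_append, List.length_replicate, List.length_replicate,
    List.length_flatten, List.map_replicate, List.sum_replicate]
  simp
  ring

/-- The monomial `x^a y^b z^c`. -/
noncomputable def mon (a b c : ℕ) : Fin 3 →₀ ℕ :=
  Finsupp.single 0 a + Finsupp.single 1 b + Finsupp.single 2 c

theorem mon_zero (a b c : ℕ) : mon a b c 0 = a := by simp [mon]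

theorem mon_one (a b c : ℕ) : mon a b c 1 = b := by simp [mon]

theorem mon_two (a b c : ℕ) : mon a b c 2 = c := by simp [mon]

/-- There is no cancellation in the coefficients in the class of `(p,q,r)` modulo `2`. -/
theorem coeff_G (a i b j c l : ℕ) :
    coeff (mon (a + 1) (b + 1) (c + 1)) (G (a + 2 * i + 2) (b + 2 * j + 2) (c + 2 * l + 2)) =
      -((-1) ^ (i + j + l) *
        (((a + (i + 1)).choose (i + 1) : ℤ) * ((b + 1 + j).choose j : ℤ) *
            ((c + (l + 1)).choose (l + 1) : ℤ) +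
          ((a + (i + 1)).choose (i + 1) : ℤ) * ((b + 1 + j).choose j : ℤ) *
            ((c + 1 + l).choose l : ℤ) +
          ((a + 1 + i).choose i : ℤ) * ((b + (j + 1)).choose (j + 1) : ℤ) *
            ((c + (l + 1)).choose (l + 1) : ℤ) +
          ((a + 1 + i).choose i : ℤ) * ((b + (j + 1)).choose (j + 1) : ℤ) *
            ((c + 1 + l).choose l : ℤ) +
          ((a + 1 + i).choose i : ℤ) * ((b + 1 + j).choose j : ℤ) *
            ((c + (l + 1)).choose (l + 1) : ℤ) +
          2 * (((a + 1 + i).choose i : ℤ) * ((b + 1 + j).choose j : ℤ) *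
            ((c + 1 + l).choose l : ℤ)))) := by
  have key : ∀ a i : ℕ, (sq (a + 2 * i + 2 + 1)).coeff (a + 1) = 0 ∧
      (sq (a + 2 * i + 2 + 1) * Polynomial.X).coeff (a + 1) =
        -((-1) ^ i * ((a + (i + 1)).choose (i + 1) : ℤ)) ∧
      (sq (a + 2 * i + 2)).coeff (a + 1) = (-1) ^ i * ((a + 1 + i).choose i : ℤ) := by
    intro a i
    refine ⟨(sq_coeff _).2.1 _ ⟨a + i + 2, by ring⟩, ?_, (sq_coeff _).1 _ _ (by ring)⟩
    rw [Polynomial.coeff_mul_X, (sq_coeff _).1 a (i + 1) (by ring), pow_succ]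
    ring
  obtain ⟨a0, a1, a2⟩ := key a i
  obtain ⟨b0, b1, b2⟩ := key b j
  obtain ⟨c0, c1, c2⟩ := key c l
  unfold G
  simp only [coeff_add, coeff_sub, coeff_prod, mon_zero, mon_one, mon_two, a0, a1, a2, b0, b1, b2,
    c0, c1, c2]
  rw [pow_add, pow_add]
  ring

theorem two_pow_le_centralBinom (m : ℕ) : 2 ^ m ≤ Nat.centralBinom m := by
  induction m with
  | zero => simp
  | succ m ih =>
    have h := Nat.succ_mul_centralBinom_succ m
    have h2 : (m + 1) * (2 * Nat.centralBinom m) ≤ (m + 1) * Nat.centralBinom (m + 1) := by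
      rw [h]
      nlinarith
    have h3 := Nat.le_of_mul_le_mul_left h2 (Nat.succ_pos m)
    rw [pow_succ]
    omega

theorem bit_coeff_G (a i b j c l : ℕ) (hc : l + 1 ≤ c) :
    l + 1 ≤ bit (coeff (mon (a + 1) (b + 1) (c + 1))
      (G (a + 2 * i + 2) (b + 2 * j + 2) (c + 2 * l + 2))) := by
  rw [coeff_G]
  unfold bit
  have h1 : 2 ^ (l + 1) ≤ (c + (l + 1)).choose (l + 1) := by
    refine (two_pow_le_centralBinom (l + 1)).trans ?_
    rw [Nat.centralBinom]
    exact Nat.choose_le_choose _ (by omega)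
  have h2 : 1 ≤ (a + (i + 1)).choose (i + 1) := Nat.choose_pos (by omega)
  have h3 : 1 ≤ (b + 1 + j).choose j := Nat.choose_pos (by omega)
  rw [Int.natAbs_neg, Int.natAbs_mul, Int.natAbs_pow, Int.natAbs_neg, Int.natAbs_one, one_pow,
    one_mul]
  set α := (a + (i + 1)).choose (i + 1)
  set α' := (a + 1 + i).choose i
  set β := (b + (j + 1)).choose (j + 1)
  set β' := (b + 1 + j).choose j
  set γ := (c + (l + 1)).choose (l + 1)
  set γ' := (c + 1 + l).choose l
  have h4 : ((α : ℤ) * β' * γ + α * β' * γ' + α' * β * γ + α' * β * γ' + α' * β' * γ +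
      2 * (α' * β' * γ')).natAbs = α * β' * γ + α * β' * γ' + α' * β * γ + α' * β * γ' +
      α' * β' * γ + 2 * (α' * β' * γ') := by
    have h5 : ((α : ℤ) * β' * γ + α * β' * γ' + α' * β * γ + α' * β * γ' + α' * β' * γ +
      2 * (α' * β' * γ')) = ((α * β' * γ + α * β' * γ' + α' * β * γ + α' * β * γ' +
      α' * β' * γ + 2 * (α' * β' * γ') : ℕ) : ℤ) := by
      push_cast
      ring
    rw [h5, Int.natAbs_natCast]
  rw [h4]
  have h6 : 2 ^ (l + 1) ≤ α * β' * γ := by
    calc 2 ^ (l + 1) ≤ γ := h1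
      _ = 1 * 1 * γ := by ring
      _ ≤ α * β' * γ := Nat.mul_le_mul_right _ (Nat.mul_le_mul h2 h3)
  have h7 : l + 1 < Nat.size (2 ^ (l + 1)) := by
    rw [Nat.lt_size]
  have h8 := Nat.size_le_size (h6.trans (show α * β' * γ ≤ α * β' * γ + α * β' * γ' + α' * β * γ +
    α' * β * γ' + α' * β' * γ + 2 * (α' * β' * γ') by omega))
  omega

/-- The bit size of the Fricke polynomial of `a^{P+1} b^{Q+1} (ab)^{R+1}`. -/
theorem bitNorm_G (K P Q R : ℕ) (hP : 6 * K + 2 ≤ P) (hQ : 6 * K + 2 ≤ Q) (hR : 6 * K + 2 ≤ R) :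
    K ^ 4 ≤ bitNorm (G P Q R) := by
  classical
  set T : Finset (ℕ × ℕ × ℕ) := Finset.range K ×ˢ Finset.range K ×ˢ Finset.range K with hT
  let φ : ℕ × ℕ × ℕ → (Fin 3 →₀ ℕ) := fun t =>
    mon (P - 2 * t.1 - 2 + 1) (Q - 2 * t.2.1 - 2 + 1) (R - 2 * (K + t.2.2) - 2 + 1)
  have hbit : ∀ t ∈ T, K ≤ bit (coeff (φ t) (G P Q R)) := by
    intro t ht
    rw [hT, Finset.mem_product, Finset.mem_product, Finset.mem_range, Finset.mem_range,
      Finset.mem_range] at ht
    obtain ⟨h1, h2, h3⟩ := ht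
    have h := bit_coeff_G (P - 2 * t.1 - 2) t.1 (Q - 2 * t.2.1 - 2) t.2.1
      (R - 2 * (K + t.2.2) - 2) (K + t.2.2) (by omega)
    have e1 : P - 2 * t.1 - 2 + 2 * t.1 + 2 = P := by omega
    have e2 : Q - 2 * t.2.1 - 2 + 2 * t.2.1 + 2 = Q := by omega
    have e3 : R - 2 * (K + t.2.2) - 2 + 2 * (K + t.2.2) + 2 = R := by omega
    rw [e1, e2, e3] at h
    exact le_trans (by omega) h
  have hinj : Set.InjOn φ T := by
    intro t ht t' ht' h
    rw [Finset.mem_coe, hT, Finset.mem_product, Finset.mem_product, Finset.mem_range,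
      Finset.mem_range, Finset.mem_range] at ht ht'
    have h0 := DFunLike.congr_fun h 0
    have h1 := DFunLike.congr_fun h 1
    have h2 := DFunLike.congr_fun h 2
    simp only [φ, mon_zero, mon_one, mon_two] at h0 h1 h2
    refine Prod.ext ?_ (Prod.ext ?_ ?_) <;> omega
  have hsub : (T.image φ).filter (fun m => coeff m (G P Q R) ≠ 0) ⊆ (G P Q R).support := by
    intro m hm
    rw [Finset.mem_filter] at hm
    exact mem_support_iff.2 hm.2
  unfold bitNorm
  calc K ^ 4 = T.card * K := by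
        rw [hT, Finset.card_product, Finset.card_product, Finset.card_range]
        ring
    _ = ∑ t ∈ T, K := by rw [Finset.sum_const, smul_eq_mul]
    _ ≤ ∑ t ∈ T, bit (coeff (φ t) (G P Q R)) := Finset.sum_le_sum hbit
    _ = ∑ m ∈ T.image φ, bit (coeff m (G P Q R)) := by rw [Finset.sum_image hinj]
    _ = ∑ m ∈ (T.image φ).filter (fun m => coeff m (G P Q R) ≠ 0), bit (coeff m (G P Q R)) := by
        rw [Finset.sum_filter]
        refine Finset.sum_congr rfl fun m _ => ?_
        split_ifs with h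
        · rfl
        · rw [not_not] at h
          rw [h]
          simp [bit]
    _ ≤ ∑ m ∈ (G P Q R).support, bit (coeff m (G P Q R)) :=
        Finset.sum_le_sum_of_subset hsub

theorem sizes_nonempty (n : ℕ) : (sizes n).Nonempty := by
  refine ⟨_, FreeGroup.mk (W n 0 0), F (W n 0 0), ?_, isFricke_mk _, rfl⟩
  rw [cycLen_W]
  simp

theorem lower (K n : ℕ) (hn : 4 * (6 * K + 3) ≤ n) : ∃ s ∈ sizes n, K ^ 4 ≤ s := by
  refine ⟨_, ⟨FreeGroup.mk (W (n - 3 * (6 * K + 2 + 1) - 1 + 1) (6 * K + 2 + 1) (6 * K + 2 + 1)),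
    G (n - 3 * (6 * K + 2 + 1) - 1) (6 * K + 2) (6 * K + 2), ?_, isFricke_G _ _ _, rfl⟩, ?_⟩
  · rw [cycLen_W]
    omega
  · exact bitNorm_G K _ _ _ (by omega) le_rfl le_rfl

/-- **MP_9614a6, Q1.** The Fricke polynomial of every word exists and is unique, the maximum
`S(n)` of the bit sizes over the words of cyclically reduced length `n` exists for every `n`,
and `S(n) = Θ(n^4)`. -/
theorem result :
    (∀ w : FreeGroup (Fin 2), ∃! f : Pol, IsFricke w f) ∧
    ∃ S : ℕ → ℕ, (∀ n, IsGreatest (sizes n) (S n)) ∧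
      ∀ n : ℕ, 100 ≤ n → (n : ℝ) ^ 4 / 50 ^ 4 ≤ (S n : ℝ) ∧ (S n : ℝ) ≤ 384 * (n : ℝ) ^ 4 := by
  refine ⟨exists_unique_fricke, fun n => sSup (sizes n), fun n => ?_, fun n hn => ?_⟩
  · have hb : BddAbove (sizes n) := ⟨24 * (n + 1) ^ 4, fun s hs => upper n s hs⟩
    exact ⟨Nat.sSup_mem (sizes_nonempty n) hb, fun s hs => le_csSup hb hs⟩
  · have hb : BddAbove (sizes n) := ⟨24 * (n + 1) ^ 4, fun s hs => upper n s hs⟩
    have hm := Nat.sSup_mem (sizes_nonempty n) hb
    constructor
    · obtain ⟨s, hs, hK⟩ := lower ((n - 12) / 24) n (by omega)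
      have h1 := le_csSup hb hs
      have h2 : ((((n - 12) / 24 : ℕ) : ℝ)) ^ 4 ≤ (sSup (sizes n) : ℕ) := by
        exact_mod_cast hK.trans h1
      have h3 : (n : ℝ) / 50 ≤ (((n - 12) / 24 : ℕ) : ℝ) := by
        have h4 : n ≤ 50 * ((n - 12) / 24) := by omega
        have h5 : (n : ℝ) ≤ 50 * (((n - 12) / 24 : ℕ) : ℝ) := by exact_mod_cast h4
        linarith
      calc (n : ℝ) ^ 4 / 50 ^ 4 = ((n : ℝ) / 50) ^ 4 := by rw [div_pow]
        _ ≤ (((n - 12) / 24 : ℕ) : ℝ) ^ 4 := by gcongr
        _ ≤ _ := h2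
    · have h1 : sSup (sizes n) ≤ 24 * (n + 1) ^ 4 := upper n _ hm
      have h2 : 24 * (n + 1) ^ 4 ≤ 384 * n ^ 4 := by
        have : (n + 1) ^ 4 ≤ (2 * n) ^ 4 := Nat.pow_le_pow_left (by omega) 4
        calc 24 * (n + 1) ^ 4 ≤ 24 * (2 * n) ^ 4 := by omega
          _ = 384 * n ^ 4 := by ring
      exact_mod_cast h1.trans h2

end Pool.Agent.Results.MP_9614a6_lc.ThetaFour
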